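import Pool.Agent.DW.Upper2
import Pool.Agent.DW.Upper3
import Pool.Agent.DW.Upper4
import Pool.Agent.DW.NoEnd
import Pool.Agent.DW.Lower
import Pool.Agent.DW.Small
import Pool.Agent.DW.Focus
import Pool.Agent.DW.Focus2
import Pool.Agent.DW.Fidel
import Pool.Agent.DW.FlowEx

/-!
# Strichartz estimates for linearised droplet water waves on `S²`

The definitions (`Strichartz`, `IsFlow`, `Hs`, `proj`, `Lam`, `σ`) are in `Pool.Agent.DW.Defs`.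
The two theorems `proj_is_projection` and `flow_exists_unique` below check that they mean what
they should; the theorem handed in is `result`.
-/

open MeasureTheory Metric Complex Filter Topology Real
open scoped ENNReal NNReal RealInnerProductSpace Manifold ContDiff

namespace Pool.Agent.Results.MP_562430_an.EndpointThreshold

open Pool.Agent.DW

/-- `thr p q` is the maximum of `0`, `3/4 (1/2 - 1/q)`, `1 - 3/(2p) - 2/q`,
`5/8 - 1/(4p) - 2/q` and `1/2 - 2/q`. -/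
noncomputable def thr (p q : ℝ≥0∞) : ℝ :=
  max 0 (max (max (3 / 4 * (1 / 2 - (q⁻¹).toReal)) (1 - 3 / 2 * (p⁻¹).toReal - 2 * (q⁻¹).toReal))
    (max (5 / 8 - 1 / 4 * (p⁻¹).toReal - 2 * (q⁻¹).toReal) (1 / 2 - 2 * (q⁻¹).toReal)))

/-- the exponents `(p, q)` for which the threshold is determined: `q ≤ 2`, or `q ≤ 4` and
`1/p + 1/q ≥ 1/2`, or `p ≥ 6` and `4/p + 2/q ≤ 1` -/
def Region (p q : ℝ≥0∞) : Prop :=
  q ≤ 2 ∨ (q ≤ 4 ∧ 1 / 2 ≤ p⁻¹ + q⁻¹) ∨ (6 ≤ p ∧ 4 * p⁻¹ + 2 * q⁻¹ ≤ 1)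

/-- `proj n` is the orthogonal projection onto the restrictions to the sphere of the harmonic
homogeneous polynomials of degree `n` -/
theorem proj_is_projection (n : ℕ) (f : S2 → ℂ) (hf : Continuous f) :
    (∃ P, HP n P ∧ ∀ x, proj n f x = evS P x) ∧
      ∀ Q, HP n Q → ∫ x, (f x - proj n f x) * (starRingEnd ℂ) (evS Q x) ∂σ = 0 :=
  proj_orthogonal n hf

/-- the flow exists and is unique up to null sets -/
theorem flow_exists_unique (f : S2 → ℂ) (hf : Continuous f) : (∃ u, IsFlow f u) ∧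
    ∀ u v, IsFlow f u → IsFlow f v → ∀ t, u t =ᵐ[σ] v t :=
  ⟨flow_exists hf, fun _ _ hu hv t => flow_unique hf hu hv t⟩

/-! ### arithmetic of the exponents -/

theorem inv_le_one {p : ℝ≥0∞} (hp : 1 ≤ p) : (p⁻¹).toReal ≤ 1 := by
  have h := ENNReal.toReal_mono (by norm_num) (ENNReal.inv_le_inv.2 hp)
  simpa using h

theorem half_le_inv {q : ℝ≥0∞} (hq1 : 1 ≤ q) (hq : q ≤ 2) : 1 / 2 ≤ (q⁻¹).toReal := by
  have h := ENNReal.toReal_mono (ENNReal.inv_ne_top.2 (lt_of_lt_of_le one_pos hq1).ne')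
    (ENNReal.inv_le_inv.2 hq)
  simpa using h

theorem inv_le_half {q : ℝ≥0∞} (hq : 2 ≤ q) : (q⁻¹).toReal ≤ 1 / 2 := by
  have h := ENNReal.toReal_mono (by norm_num) (ENNReal.inv_le_inv.2 hq)
  simpa using h

theorem quarter_le_inv {q : ℝ≥0∞} (hq1 : 1 ≤ q) (hq : q ≤ 4) : 1 / 4 ≤ (q⁻¹).toReal := by
  have h := ENNReal.toReal_mono (ENNReal.inv_ne_top.2 (lt_of_lt_of_le one_pos hq1).ne')
    (ENNReal.inv_le_inv.2 hq)
  simpa using h

theorem inv_le_sixth {p : ℝ≥0∞} (hp : 6 ≤ p) : (p⁻¹).toReal ≤ 1 / 6 := by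
  have h := ENNReal.toReal_mono (by norm_num) (ENNReal.inv_le_inv.2 hp)
  simpa using h

theorem regA {p q : ℝ≥0∞} (hp : 1 ≤ p) (hq : 1 ≤ q) (h : 1 / 2 ≤ p⁻¹ + q⁻¹) :
    1 / 2 ≤ (p⁻¹).toReal + (q⁻¹).toReal := by
  have hp' : p⁻¹ ≠ ⊤ := ENNReal.inv_ne_top.2 (lt_of_lt_of_le one_pos hp).ne'
  have hq' : q⁻¹ ≠ ⊤ := ENNReal.inv_ne_top.2 (lt_of_lt_of_le one_pos hq).ne'
  have h1 := ENNReal.toReal_mono (ENNReal.add_ne_top.2 ⟨hp', hq'⟩) h
  rw [ENNReal.toReal_add hp' hq', ENNReal.toReal_div] at h1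
  simpa using h1

theorem regB {p q : ℝ≥0∞} (hp : 1 ≤ p) (hq : 1 ≤ q) (h : 4 * p⁻¹ + 2 * q⁻¹ ≤ 1) :
    4 * (p⁻¹).toReal + 2 * (q⁻¹).toReal ≤ 1 := by
  have hp' : p⁻¹ ≠ ⊤ := ENNReal.inv_ne_top.2 (lt_of_lt_of_le one_pos hp).ne'
  have hq' : q⁻¹ ≠ ⊤ := ENNReal.inv_ne_top.2 (lt_of_lt_of_le one_pos hq).ne'
  have h1 := ENNReal.toReal_mono (by norm_num) h
  rw [ENNReal.toReal_add (ENNReal.mul_ne_top (by norm_num) hp')
    (ENNReal.mul_ne_top (by norm_num) hq'), ENNReal.toReal_mul, ENNReal.toReal_mul] at h1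
  simpa using h1

/-- `thr = 0` for `q ≤ 2` -/
theorem thr_small {p q : ℝ≥0∞} (hq : 1 ≤ q) (hq2 : q ≤ 2) : thr p q = 0 := by
  have h := half_le_inv hq hq2
  have hp : 0 ≤ (p⁻¹).toReal := ENNReal.toReal_nonneg
  unfold thr
  refine max_eq_left (max_le (max_le ?_ ?_) (max_le ?_ ?_)) <;> linarith

/-- `thr = 3/4 (1/2 - 1/q)` for `2 ≤ q ≤ 4`, `1/p + 1/q ≥ 1/2` -/
theorem thr_A {p q : ℝ≥0∞} (hp : 1 ≤ p) (hq : 2 ≤ q) (hq4 : q ≤ 4) (hpq : 1 / 2 ≤ p⁻¹ + q⁻¹) :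
    thr p q = 3 / 4 * (1 / 2 - (q⁻¹).toReal) := by
  have hq1 : 1 ≤ q := le_trans (by norm_num) hq
  have h1 := inv_le_half hq
  have h2 := quarter_le_inv hq1 hq4
  have h3 := regA hp hq1 hpq
  have h4 : 0 ≤ (p⁻¹).toReal := ENNReal.toReal_nonneg
  unfold thr
  refine le_antisymm (max_le (by linarith) (max_le (max_le le_rfl ?_) (max_le ?_ ?_)))
    (((le_max_left _ _).trans (le_max_left _ _)).trans (le_max_right _ _)) <;> linarith

/-- `thr = 1 - 3/(2p) - 2/q` for `p ≥ 6`, `q ≥ 2`, `4/p + 2/q ≤ 1` -/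
theorem thr_B {p q : ℝ≥0∞} (hp : 6 ≤ p) (hq : 2 ≤ q) (hpq : 4 * p⁻¹ + 2 * q⁻¹ ≤ 1) :
    thr p q = 1 - 3 / 2 * (p⁻¹).toReal - 2 * (q⁻¹).toReal := by
  have hp1 : 1 ≤ p := le_trans (by norm_num) hp
  have hq1 : 1 ≤ q := le_trans (by norm_num) hq
  have h1 := inv_le_half hq
  have h2 := inv_le_sixth hp
  have h3 := regB hp1 hq1 hpq
  have h4 : 0 ≤ (p⁻¹).toReal := ENNReal.toReal_nonneg
  have h5 : 0 ≤ (q⁻¹).toReal := ENNReal.toReal_nonneg
  unfold thr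
  refine le_antisymm (max_le (by linarith) (max_le (max_le ?_ le_rfl) (max_le ?_ ?_)))
    (((le_max_right _ _).trans (le_max_left _ _)).trans (le_max_right _ _)) <;> linarith

/-! ### the result -/

theorem thr_le {p q : ℝ≥0∞} (hp : 1 ≤ p) (hq : 1 ≤ q) {s : ℝ} (h : Strichartz p q s) :
    thr p q ≤ s := by
  rcases le_total q 2 with hq2 | hq2
  · rw [thr_small hq hq2]
    exact (small p q hp hq hq2 s).1 h
  · have h0 : 0 ≤ 3 / 4 * (1 / 2 - (q⁻¹).toReal) := by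
      have := inv_le_half hq2
      linarith
    have h1 : 3 / 4 * (1 / 2 - (q⁻¹).toReal) ≤ s :=
      not_lt.1 fun hs => lower p q hp hq2 s hs h
    refine max_le (h0.trans h1) (max_le (max_le h1 ?_) (max_le ?_ ?_))
    · exact not_lt.1 fun hs => focus p q hp hq2 s hs h
    · exact not_lt.1 fun hs => focus2 p q hp hq2 s (by linarith) h
    · exact not_lt.1 fun hs => focus1 p q hp hq2 s hs h

/-- the set of all `s` on `Region`, except for `p = q = ∞` -/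
theorem iff_region {p q : ℝ≥0∞} (hp : 1 ≤ p) (hq : 1 ≤ q) (hR : Region p q)
    (hne : ¬ (p = ⊤ ∧ q = ⊤)) (s : ℝ) : Strichartz p q s ↔ thr p q ≤ s := by
  refine ⟨fun h => thr_le hp hq h, fun h => ?_⟩
  rcases le_total q 2 with hq2 | hq2
  · rw [thr_small hq hq2] at h
    exact (small p q hp hq hq2 s).2 h
  · rcases hR with hR | ⟨hq4, hpq⟩ | ⟨hp6, hpq⟩
    · have e : q = 2 := le_antisymm hR hq2
      subst e
      rw [thr_small hq le_rfl] at h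
      exact (small p 2 hp hq le_rfl s).2 h
    · rw [thr_A hp hq2 hq4 hpq] at h
      exact upper3 p q hq2 hq4 hpq hp s h
    · rw [thr_B hp6 hq2 hpq] at h
      exact upper4 p q hp6 hq2 hpq hne s h

/-- the set of all `s` for `p = q = ∞` -/
theorem iff_top (s : ℝ) : Strichartz ⊤ ⊤ s ↔ 1 < s := by
  have e : thr ⊤ ⊤ = 1 := by
    rw [thr_B (p := ⊤) (q := ⊤) le_top le_top (by simp)]
    simp
  constructor
  · intro h
    have h1 := thr_le (p := ⊤) (q := ⊤) le_top le_top h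
    rw [e] at h1
    rcases h1.eq_or_lt with h2 | h2
    · rw [← h2] at h
      exact absurd h noend
    · exact h2
  · intro h
    refine upper2 ⊤ ⊤ le_top le_top (by simp) s ?_
    simpa using h

theorem half_le : (1 / 2 : ℝ≥0∞) ≤ (4 : ℝ≥0∞)⁻¹ + (4 : ℝ≥0∞)⁻¹ := by
  rw [← ENNReal.toReal_le_toReal (by finiteness) (by finiteness),
    ENNReal.toReal_add (by finiteness) (by finiteness), ENNReal.toReal_inv, ENNReal.toReal_div]
  norm_num

theorem thr44 : thr 4 4 = 3 / 16 := by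
  rw [thr_A (by norm_num) (by norm_num) le_rfl half_le, ENNReal.toReal_inv]
  norm_num

/-- The Strichartz estimate `(p, q, s)` requires `s ≥ thr p q` for all `p, q ≥ 1`. On `Region`
it holds exactly for `s ≥ thr p q`, except that for `p = q = ∞` it holds exactly for `s > 1`.
In particular `(4, 4, s)` holds exactly for `s ≥ 3/16`. -/
theorem result :
    (∀ p q : ℝ≥0∞, 1 ≤ p → 1 ≤ q → ∀ s : ℝ, Strichartz p q s → thr p q ≤ s) ∧
    (∀ p q : ℝ≥0∞, 1 ≤ p → 1 ≤ q → Region p q → ¬ (p = ⊤ ∧ q = ⊤) →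
      ∀ s : ℝ, Strichartz p q s ↔ thr p q ≤ s) ∧
    (∀ s : ℝ, Strichartz ⊤ ⊤ s ↔ 1 < s) ∧
    (∀ p q : ℝ≥0∞, 1 ≤ p → 1 ≤ q → q ≤ 2 → thr p q = 0) ∧
    (∀ p q : ℝ≥0∞, 1 ≤ p → 2 ≤ q → q ≤ 4 → 1 / 2 ≤ p⁻¹ + q⁻¹ →
      thr p q = 3 / 4 * (1 / 2 - (q⁻¹).toReal)) ∧
    (∀ p q : ℝ≥0∞, 6 ≤ p → 2 ≤ q → 4 * p⁻¹ + 2 * q⁻¹ ≤ 1 →
      thr p q = 1 - 3 / 2 * (p⁻¹).toReal - 2 * (q⁻¹).toReal) ∧
    (∀ s : ℝ, Strichartz 4 4 s ↔ 3 / 16 ≤ s) := by
  refine ⟨fun p q hp hq s hs => thr_le hp hq hs,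
    fun p q hp hq hR hne s => iff_region hp hq hR hne s, iff_top,
    fun p q _ hq hq2 => thr_small hq hq2,
    fun p q hp hq hq4 hpq => thr_A hp hq hq4 hpq, fun p q hp hq hpq => thr_B hp hq hpq,
    fun s => ?_⟩
  rw [iff_region (by norm_num) (by norm_num) (Or.inr (Or.inl ⟨le_rfl, half_le⟩))
    (by rintro ⟨h, -⟩; exact absurd h (by norm_num)) s, thr44]

end Pool.Agent.Results.MP_562430_an.EndpointThreshold
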